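import Pool.Agent.Helper64.BKA.Stmts3

/-!
# CJM: complex conjugation of a meromorphic function

`BKA.st_CJM : ST_CJM`.
-/

set_option autoImplicit false

open Filter Topology
open scoped ComplexConjugate

namespace BKA
namespace CJMaux

lemma tend (z : ℂ) : Tendsto (fun s : ℂ => conj s) (𝓝 z) (𝓝 (conj z)) :=
  Complex.continuous_conj.continuousAt

lemma tend' (z : ℂ) : Tendsto (fun s : ℂ => conj s) (𝓝[≠] z) (𝓝[≠] (conj z)) := by
  refine tendsto_nhdsWithin_iff.2 ⟨(tend z).mono_left nhdsWithin_le_nhds, ?_⟩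
  filter_upwards [self_mem_nhdsWithin] with s hs
  intro e
  apply hs
  have h := congrArg (fun t : ℂ => conj t) (Set.mem_singleton_iff.1 e)
  simp only [Complex.conj_conj] at h
  exact h

lemma analyticAt_cc {g : ℂ → ℂ} {z : ℂ} (hg : AnalyticAt ℂ g (conj z)) :
    AnalyticAt ℂ (fun s => conj (g (conj s))) z := by
  rw [Complex.analyticAt_iff_eventually_differentiableAt] at hg ⊢
  filter_upwards [(tend z).eventually hg] with s hs
  have h := DifferentiableAt.conj_conj hs
  rw [Complex.conj_conj] at h
  exact h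

lemma meromorphicAt_cc {f : ℂ → ℂ} {z : ℂ} (hf : MeromorphicAt f (conj z)) :
    MeromorphicAt (fun s => conj (f (conj s))) z := by
  obtain ⟨n, hn⟩ := hf
  refine ⟨n, ?_⟩
  have h := analyticAt_cc hn
  have e : (fun s : ℂ => conj ((conj s - conj z) ^ n • f (conj s))) =
      fun s => (s - z) ^ n • conj (f (conj s)) := by
    funext s
    rw [smul_eq_mul, smul_eq_mul, map_mul, map_pow, map_sub, Complex.conj_conj,
      Complex.conj_conj]
  rw [e] at h
  exact h

end CJMaux

open CJMaux in
theorem st_CJM : ST_CJM := by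
  intro Λ hΛ
  have hm : ∀ s, MeromorphicAt (fun s => conj (Λ (conj s))) s := fun s =>
    meromorphicAt_cc (hΛ (conj s) (Set.mem_univ _))
  refine ⟨fun s _ => hm s, fun s => ?_⟩
  rcases h : meromorphicOrderAt Λ (conj s) with _ | n
  · have h0 : meromorphicOrderAt Λ (conj s) = ⊤ := h
    rw [meromorphicOrderAt_eq_top_iff] at h0
    have h1 : meromorphicOrderAt (fun s => conj (Λ (conj s))) s = ⊤ := by
      rw [meromorphicOrderAt_eq_top_iff]
      filter_upwards [(tend' s).eventually h0] with z hz
      rw [hz, map_zero]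
    exact h1
  · have h0 : meromorphicOrderAt Λ (conj s) = (n : WithTop ℤ) := h
    rw [meromorphicOrderAt_eq_int_iff (hΛ (conj s) (Set.mem_univ _))] at h0
    obtain ⟨g, hg, hg0, hev⟩ := h0
    have h1 : meromorphicOrderAt (fun s => conj (Λ (conj s))) s = (n : WithTop ℤ) := by
      rw [meromorphicOrderAt_eq_int_iff (hm s)]
      refine ⟨fun s => conj (g (conj s)), analyticAt_cc hg, ?_, ?_⟩
      · intro e
        exact hg0 ((map_eq_zero _).1 e)
      · filter_upwards [(tend' s).eventually hev] with z hz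
        rw [hz, smul_eq_mul, smul_eq_mul, map_mul, map_zpow₀, map_sub, Complex.conj_conj,
          Complex.conj_conj]
    exact h1

end BKA
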